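import Pool.Agent.Helper73.Spectra.Main

namespace Pool.Agent.Results.MP_4e0f8a_lc.BiNotIso

open Pool.Agent.Helper73.Spectra

/-- There is a structure `A` (in a computable language, with universe a set of natural numbers)
whose bi-embeddability spectrum is not the isomorphism spectrum of any structure. -/
theorem result : ∃ (L : CLang) (A : CStr L), ∀ (L' : CLang) (B : CStr L'),
    biSpec A ≠ isoSpec B :=
  main

end Pool.Agent.Results.MP_4e0f8a_lc.BiNotIso
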